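import Pool.Agent.H36.NA.Nrm
import Pool.Agent.H36.NA.Ren

/-!
# MP_8d0949_an: operators which do not attain their norm, for a dense set of norms
-/

set_option autoImplicit false

namespace Pool.Agent.Results.MP_8d0949_an.DenseNorms

open Pool.Agent.H36.NA

universe u v

/-- Every separable infinite dimensional Banach space is arbitrarily close to a Banach space on
which some operator, the identity minus a rank one operator, does not attain its norm. -/
theorem result {𝕜 : Type v} [RCLike 𝕜] {X : Type u} [NormedAddCommGroup X] [NormedSpace 𝕜 X]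
    [CompleteSpace X] [TopologicalSpace.SeparableSpace X] (hX : ¬ FiniteDimensional 𝕜 X)
    {ε : ℝ} (hε : 0 < ε) :
    ∃ (Y : Type u) (_ : NormedAddCommGroup Y) (_ : NormedSpace 𝕜 Y) (_ : CompleteSpace Y)
      (_ : TopologicalSpace.SeparableSpace Y) (e : X ≃L[𝕜] Y),
      (∀ x, ‖x‖ ≤ ‖e x‖ ∧ ‖e x‖ ≤ (1 + ε) * ‖x‖) ∧
      ∃ (T : Y →L[𝕜] Y) (φ : Y →L[𝕜] 𝕜) (u : Y),
        (∀ y, T y = y - φ y • u) ∧ ∀ y, ‖y‖ = 1 → ‖T y‖ ≠ ‖T‖ := by
  have hm : 0 < min ε 1 := lt_min hε one_pos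
  obtain ⟨N, N1, N2, φ, u, L, hL1, hL2⟩ := exists_norm_op (𝕜 := 𝕜) hX hm (min_le_right ε 1)
  have N2' : ∀ x, N x ≤ (1 + ε) * ‖x‖ := fun x =>
    (N2 x).trans (mul_le_mul_of_nonneg_right (by linarith [min_le_left ε 1]) (norm_nonneg x))
  obtain ⟨Y, i1, i2, e, he⟩ := exists_ren N N1 N2'
  have hc : CompleteSpace Y :=
    (completeSpace_congr (e := e.toEquiv) e.isUniformEmbedding).1 inferInstance
  have hs : TopologicalSpace.SeparableSpace Y :=
    e.surjective.denseRange.separableSpace e.continuous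
  refine ⟨Y, i1, i2, hc, hs, e, fun x => ?_, ?_⟩
  · rw [he]
    exact ⟨N1 x, N2' x⟩
  · let ψ : Y →L[𝕜] 𝕜 := φ.comp (e.symm : Y →L[𝕜] X)
    let T : Y →L[𝕜] Y := ContinuousLinearMap.id 𝕜 Y - ψ.smulRight (e u)
    have hT : ∀ x, T (e x) = e (x - φ x • u) := by
      intro x
      show e x - φ (e.symm (e x)) • e u = e (x - φ x • u)
      rw [ContinuousLinearEquiv.symm_apply_apply, map_sub, map_smul]
    have hTn : ∀ x, ‖T (e x)‖ = N (x - φ x • u) := by
      intro x
      rw [hT, he]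
    refine ⟨T, ψ, e u, fun y => rfl, fun y hy => ?_⟩
    obtain ⟨x, rfl⟩ := e.surjective y
    have hNx : N x = 1 := by rw [← he]; exact hy
    have h1 : ‖T (e x)‖ < L := by
      rw [hTn]
      exact hL1 x hNx.le
    have h2 : L ≤ ‖T‖ := by
      by_contra hlt
      obtain ⟨x', hx1, hx2⟩ := hL2 ‖T‖ (not_le.1 hlt)
      rw [← hTn] at hx2
      have h3 : ‖T (e x')‖ ≤ ‖T‖ * ‖e x'‖ := T.le_opNorm _
      have h4 : ‖T‖ * ‖e x'‖ ≤ ‖T‖ * 1 := by
        refine mul_le_mul_of_nonneg_left ?_ (norm_nonneg _)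
        rw [he]
        exact hx1
      linarith
    exact ne_of_lt (lt_of_lt_of_le h1 h2)

end Pool.Agent.Results.MP_8d0949_an.DenseNorms
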