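import Pool.Agent.H30.PM.Fin

/-!
# MP_8d0949_an: scalar plus compact operators on reflexive spaces with property (M)

On a separable reflexive space with Kalton's property (M) every operator `c I + K` with `K` compact
attains its norm if and only if the space fails the bounded compact approximation property.
-/

namespace Pool.Agent.Results.MP_8d0949_an.PropertyM

open Filter Topology

/-- Let `X` be a separable infinite dimensional reflexive Banach space with property (M): for all
`u v` with `‖u‖ = ‖v‖` and every weakly null sequence `z`, `limsup ‖u + z n‖ = limsup ‖v + z n‖`.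
Then all operators `c I + K`, `K` compact, attain their norm if and only if `X` fails the bounded
compact approximation property. -/
theorem result {𝕜 : Type*} [RCLike 𝕜] {X : Type*} [NormedAddCommGroup X] [NormedSpace 𝕜 X]
    [CompleteSpace X] [TopologicalSpace.SeparableSpace X]
    (hinf : ¬ FiniteDimensional 𝕜 X)
    (hr : Function.Surjective (NormedSpace.inclusionInDoubleDual 𝕜 X))
    (hM : ∀ (u v : X) (z : ℕ → X), ‖u‖ = ‖v‖ →
      (∀ φ : X →L[𝕜] 𝕜, Tendsto (fun n => φ (z n)) atTop (𝓝 0)) →
      limsup (fun n => ‖u + z n‖) atTop = limsup (fun n => ‖v + z n‖) atTop) :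
    (∀ (c : 𝕜) (K : X →L[𝕜] X), IsCompactOperator K →
      ∃ x : X, ‖x‖ = 1 ∧ ‖c • x + K x‖ = ‖c • ContinuousLinearMap.id 𝕜 X + K‖) ↔
    ¬ ∃ C : ℝ, ∀ A : Set X, IsCompact A → ∀ ε : ℝ, 0 < ε →
      ∃ L : X →L[𝕜] X, IsCompactOperator L ∧ ‖L‖ ≤ C ∧ ∀ x ∈ A, ‖L x - x‖ ≤ ε :=
  Pool.H30.PM.final hinf hr hM

end Pool.Agent.Results.MP_8d0949_an.PropertyM
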