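import Pool.Agent.H30.RG.Fin

/-!
# MP_8d0949_an: complemented subspaces of Banach lattices

Every separable infinite dimensional Banach space which is isomorphic to a complemented subspace of
a Banach lattice carries an operator which does not attain its norm.
-/

namespace Pool.Agent.Results.MP_8d0949_an.Rigidity

/-- Let `X` be a separable infinite dimensional real Banach space which is isomorphic to a
complemented subspace of a Banach lattice `L`: there are bounded operators `i : X → L`, `P : L → X`
with `P i = id`. Then some operator `T` on `X` does not attain its norm. -/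
theorem result {X : Type*} [NormedAddCommGroup X] [NormedSpace ℝ X] [CompleteSpace X]
    [TopologicalSpace.SeparableSpace X] (hinf : ¬ FiniteDimensional ℝ X)
    {L : Type*} [NormedAddCommGroup L] [Lattice L] [IsOrderedAddMonoid L] [HasSolidNorm L]
    [NormedSpace ℝ L] [PosSMulMono ℝ L] [CompleteSpace L] (i : X →L[ℝ] L) (P : L →L[ℝ] X)
    (hPi : ∀ x, P (i x) = x) :
    ∃ T : X →L[ℝ] X, ∀ x : X, ‖x‖ = 1 → ‖T x‖ ≠ ‖T‖ := by
  by_contra h
  push Not at h
  exact hinf (Pool.H30.RG.finite_of_lattice h i P hPi)

end Pool.Agent.Results.MP_8d0949_an.Rigidity
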