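import Pool.Agent.H30.DV.Fin

/-!
# MP_8d0949_an: all operators of the form scalar plus strictly singular attain their norm on some
infinite dimensional separable Banach space

The space is Davie's closed subspace of `ℓ_4` without the compact approximation property.
-/

namespace Pool.Agent.Results.MP_8d0949_an.ScalarPlusSingular

/-- Over the real and over the complex numbers there is an infinite dimensional separable Banach
space `X` such that for every surjective linear isometry `U` of `X` (for instance the identity),
every scalar `c` and every strictly singular operator `S` on `X` (in particular every compact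
operator) the operator `c U + S` attains its norm. -/
theorem result (𝕜 : Type) [RCLike 𝕜] :
    ∃ (X : Type) (_ : NormedAddCommGroup X) (_ : NormedSpace 𝕜 X),
      CompleteSpace X ∧ TopologicalSpace.SeparableSpace X ∧ ¬ FiniteDimensional 𝕜 X ∧
      ∀ (U : X ≃ₗᵢ[𝕜] X) (c : 𝕜) (S : X →L[𝕜] X),
        (∀ M : Submodule 𝕜 X, ¬ FiniteDimensional 𝕜 M →
          ∀ ε : ℝ, 0 < ε → ∃ x ∈ M, x ≠ 0 ∧ ‖S x‖ < ε * ‖x‖) →
        ∃ x : X, ‖x‖ = 1 ∧
          ‖c • U x + S x‖ = ‖c • (U.toContinuousLinearEquiv : X →L[𝕜] X) + S‖ := by
  obtain ⟨X, i1, i2, h1, h2, h3, h4, -⟩ := Pool.H30.DV.final 𝕜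
  exact ⟨X, i1, i2, h1, h2, h3, fun U c S hS => h4 U c S hS⟩

end Pool.Agent.Results.MP_8d0949_an.ScalarPlusSingular
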